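import Pool.Agent.Helper21.CU.St

/-! Module NF of project CU: the norm form is anisotropic. -/

set_option autoImplicit false

namespace Pool.Agent.Helper57.CU

open Pool.Agent.Helper21.CU

theorem exists_cbrt (k : ℤ) : ∃ t : ℝ, t ^ 3 = (k : ℝ) := by
  have h : Function.Surjective (fun x : ℝ => x ^ 3) := by
    apply (continuous_pow 3).surjective
    · exact Filter.tendsto_pow_atTop (by norm_num)
    · have h1 : Filter.Tendsto (fun x : ℝ => -((-x) ^ 3)) Filter.atBot Filter.atBot := by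
        apply Filter.tendsto_neg_atTop_atBot.comp
        exact (Filter.tendsto_pow_atTop (by norm_num : (3 : ℕ) ≠ 0)).comp
          Filter.tendsto_neg_atBot_atTop
      refine h1.congr fun x => ?_
      ring
  exact h k

theorem irr_of_nonCube {k : ℤ} (hk : NonCube k) {t : ℝ} (ht : t ^ 3 = (k : ℝ)) : Irrational t := by
  apply irrational_nrt_of_notint_nrt 3 k ht _ (by norm_num)
  rintro ⟨y, rfl⟩
  apply hk y
  exact_mod_cast ht

theorem lin_irr {t : ℝ} (ht : Irrational t) {a b : ℤ} (h : (a : ℝ) + b * t = 0) : a = 0 ∧ b = 0 := by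
  have hb : b = 0 := by
    by_contra hb
    have hb' : (b : ℝ) ≠ 0 := by exact_mod_cast hb
    apply ht
    refine ⟨-(a : ℚ) / b, ?_⟩
    push_cast
    field_simp
    linarith
  subst hb
  refine ⟨?_, rfl⟩
  have : (a : ℝ) = 0 := by simpa using h
  exact_mod_cast this

theorem indep {k : ℤ} {t : ℝ} (ht : t ^ 3 = (k : ℝ)) (hi : Irrational t) {u v w : ℤ}
    (h : (u : ℝ) + v * t + w * t ^ 2 = 0) : u = 0 ∧ v = 0 ∧ w = 0 := by
  have h2 : ((w ^ 2 * k - u * v : ℤ) : ℝ) + ((u * w - v ^ 2 : ℤ) : ℝ) * t = 0 := by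
    push_cast
    linear_combination (w * t - v) * h - (w : ℝ) ^ 2 * ht
  obtain ⟨h3, h4⟩ := lin_irr hi h2
  have hw : w = 0 := by
    by_contra hw
    have h5 : v ^ 3 = w ^ 3 * k := by
      linear_combination (-v) * h4 - w * h3
    have hw' : (w : ℝ) ≠ 0 := by exact_mod_cast hw
    have h6 : ((v : ℝ) / w) ^ 3 = t ^ 3 := by
      rw [ht, div_pow, div_eq_iff (pow_ne_zero _ hw')]
      have : ((v ^ 3 : ℤ) : ℝ) = ((w ^ 3 * k : ℤ) : ℝ) := by rw [h5]
      push_cast at this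
      linarith
    have h7 : (v : ℝ) / w = t := (Odd.strictMono_pow (by decide : Odd 3)).injective h6
    apply hi
    refine ⟨(v : ℚ) / w, ?_⟩
    push_cast
    exact h7
  subst hw
  have h8 : (u : ℝ) + v * t = 0 := by simpa using h
  obtain ⟨h9, h10⟩ := lin_irr hi h8
  exact ⟨h9, h10, rfl⟩

theorem hNF : StNF := by
  intro k hk u v w h
  obtain ⟨t, ht⟩ := exists_cbrt k
  have hi := irr_of_nonCube hk ht
  have h0 : ((Nf k u v w : ℤ) : ℝ) = 0 := by rw [h]; simp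
  have h1 : ((u : ℝ) + v * t + w * t ^ 2) *
      (((u : ℝ) - v * t) ^ 2 + (v * t - w * t ^ 2) ^ 2 + (u - w * t ^ 2) ^ 2) = 0 := by
    have h2 : ((u : ℝ) + v * t + w * t ^ 2) *
      (((u : ℝ) - v * t) ^ 2 + (v * t - w * t ^ 2) ^ 2 + (u - w * t ^ 2) ^ 2) =
        2 * ((Nf k u v w : ℤ) : ℝ) := by
      unfold Nf
      push_cast
      linear_combination (2 * (v : ℝ) ^ 3 + 2 * (w : ℝ) ^ 3 * (t ^ 3 + k) - 6 * u * v * w) * ht
    rw [h2, h0, mul_zero]
  rcases mul_eq_zero.1 h1 with h3 | h3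
  · exact indep ht hi h3
  · have e1 : ((u : ℝ) - v * t) ^ 2 = 0 := by nlinarith [sq_nonneg ((u : ℝ) - v * t), sq_nonneg ((v : ℝ) * t - w * t ^ 2), sq_nonneg ((u : ℝ) - w * t ^ 2)]
    have e2 : ((v : ℝ) * t - w * t ^ 2) ^ 2 = 0 := by nlinarith [sq_nonneg ((u : ℝ) - v * t), sq_nonneg ((v : ℝ) * t - w * t ^ 2), sq_nonneg ((u : ℝ) - w * t ^ 2)]
    have e1' : (u : ℝ) - v * t = 0 := pow_eq_zero_iff (by norm_num) |>.1 e1
    have e2' : (v : ℝ) * t - w * t ^ 2 = 0 := pow_eq_zero_iff (by norm_num) |>.1 e2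
    have f1 : ((u : ℤ) : ℝ) + ((-v : ℤ) : ℝ) * t + ((0 : ℤ) : ℝ) * t ^ 2 = 0 := by
      push_cast
      linarith
    have f2 : ((0 : ℤ) : ℝ) + ((v : ℤ) : ℝ) * t + ((-w : ℤ) : ℝ) * t ^ 2 = 0 := by
      push_cast
      linarith
    obtain ⟨a1, a2, _⟩ := indep ht hi f1
    obtain ⟨_, b2, b3⟩ := indep ht hi f2
    exact ⟨a1, b2, neg_eq_zero.1 b3⟩

end Pool.Agent.Helper57.CU
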